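import Pool.Agent.Lib.helper7.ASZ
import Pool.Agent.H.MP_5a3b5e_co.C

set_option autoImplicit false

namespace Pool.Agent.H.MP_22a609_co

open Pool.Agent.Lib.helper7.AS Pool.Agent.H.MP_5a3b5e_co

def ps (l : List ℕ) : ℤ := if l.Nodup ∧ inP (l.map (2 ^ ·)).sum = true then 1 else 0

theorem ps_perm {l m : List ℕ} (h : l.Perm m) : ps l = ps m := by
  rw [ps, ps, (h.map _).sum_eq]
  exact if_congr (and_congr_left' h.nodup_iff) rfl rfl

theorem ps_ph {a b c d e : ℕ} (h1 : a ≤ b) (h2 : b ≤ c) (h3 : c ≤ d) (h4 : d ≤ e) :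
    ps [a, b, c, d, e] = ph a b c d e := by
  rw [ps, ph]
  refine if_congr ?_ rfl rfl
  simp only [List.nodup_cons, List.mem_cons, List.not_mem_nil, or_false, not_or, List.nodup_nil,
    List.map_cons, List.map_nil, List.sum_cons, List.sum_nil, add_zero, add_assoc, ← and_assoc,
    not_false_eq_true, and_true]
  exact and_congr_left' (by omega)

theorem d_ps {a b c x e f : ℕ} (h1 : a ≤ b) (h2 : b ≤ c) (h3 : c ≤ x) (h4 : x ≤ e) (h5 : e ≤ f) :
    d [a, b, c, x, e, f] ps = DD a b c x e f := by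
  simp only [d, DD]
  rw [ps_ph h2 h3 h4 h5, ps_ph (h1.trans h2) h3 h4 h5, ps_ph h1 (h2.trans h3) h4 h5,
    ps_ph h1 h2 (h3.trans h4) h5, ps_ph h1 h2 h3 (h4.trans h5), ps_ph h1 h2 h3 h4]
  ring

theorem gg_mono {p q : Setoid (Fin 14)} (h : p ≤ q) : gg p ≤ gg q :=
  Finset.card_le_card (blk_mono h)

theorem even6 (l : List (Setoid (Fin 14))) (h6 : l.length = 5 + 1) (hQ : ∀ t ∈ l, t ∈ Proper lam)
    (hc : ∀ a ∈ l, ∀ b ∈ l, a ≤ b ∨ b ≤ a) : (2 : ℤ) ∣ d l fun m => ps (m.map gg) := by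
  have hp := List.mergeSort_perm l fun a b => decide (gg a ≤ gg b)
  have hs := List.pairwise_mergeSort (le := fun a b => decide (gg a ≤ gg b))
    (fun a b c h h' => by simp only [decide_eq_true_eq] at *; omega)
    (fun a b => by simp only [Bool.or_eq_true, decide_eq_true_eq]; omega) l
  generalize l.mergeSort (fun a b => decide (gg a ≤ gg b)) = m at hp hs
  have hm := hp.length_eq.trans h6
  refine (ZMod.intCast_zmod_eq_zero_iff_dvd _ 2).mp ?_
  have e := fun l => d_hom (Int.castRingHom (ZMod 2)) l ps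
  simp only [eq_intCast] at e
  rw [d_map, e, d_perm (hp.symm.map gg) _ fun _ _ h => by rw [ps_perm h], ← e]
  have hQ' : ∀ t ∈ m, t ∈ Proper lam := fun t ht => hQ t (hp.subset ht)
  have hl : ∀ a ∈ m, ∀ b ∈ m, gg a < gg b → a < b := fun a ha b hb h =>
    lt_of_le_of_ne ((hc a (hp.subset ha) b (hp.subset hb)).resolve_right
      fun h' => (gg_mono h').not_gt h) fun e => h.ne (congrArg gg e)
  obtain ⟨t0, t1, t2, t3, t4, t5, rfl⟩ : ∃ t0 t1 t2 t3 t4 t5, m = [t0, t1, t2, t3, t4, t5] := by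
    rcases m with _ | ⟨t0, _ | ⟨t1, _ | ⟨t2, _ | ⟨t3, _ | ⟨t4, _ | ⟨t5, _ | ⟨t6, m⟩⟩⟩⟩⟩⟩⟩ <;>
      simp at hm
    exact ⟨_, _, _, _, _, _, rfl⟩
  simp only [List.pairwise_cons, List.mem_cons, forall_eq_or_imp, decide_eq_true_eq] at hs
  have h1 := hs.1.1
  have h2 := hs.2.1.1
  have h3 := hs.2.2.1.1
  have h4 := hs.2.2.2.1.1
  have h5 := hs.2.2.2.2.1.1
  simp only [List.map_cons, List.map_nil]
  rw [d_ps h1 h2 h3 h4 h5]
  by_cases hd : gg t0 = gg t1 ∨ gg t1 = gg t2 ∨ gg t2 = gg t3 ∨ gg t3 = gg t4 ∨ gg t4 = gg t5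
  · rw [DD_deg _ _ _ _ _ _ hd, Int.cast_zero]
  refine (ZMod.intCast_zmod_eq_zero_iff_dvd _ 2).mpr (Int.dvd_of_emod_eq_zero
    (DD_even ![t0, t1, t2, t3, t4, t5] ?_ ?_))
  · rw [Fin.strictMono_iff_lt_succ]
    intro i
    fin_cases i <;> exact hl _ (by simp) _ (by simp) (by simp; omega)
  · intro i
    fin_cases i <;> exact hQ' _ (by simp)

theorem total {ι : Type} (A : Finset ι) (g : ι → Fin 6 → Setoid (Fin 14))
    (hg : ∀ a ∈ A, StrictMono (g a)) (w : (Fin 6 → Setoid (Fin 14)) →₀ ℤ)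
    (hw : w = ∑ a ∈ A, Finsupp.single (g a) 1) (h : Phi (bd _ 5 w) = -2) :
    (∑ a ∈ A, d (List.ofFn (g a)) fun m => ps (m.map gg)) % 4 = 2 := by
  rw [hw, map_sum, map_sum] at h
  have : (∑ a ∈ A, d (List.ofFn (g a)) fun m => ps (m.map gg)) = -2 := by
    refine Eq.trans (Finset.sum_congr rfl fun a ha => ?_) h
    have := fun i j h => gg_mono ((hg a ha).monotone (a := i) (b := j) h)
    rw [Phi_bd, d_map, ← d_ps (this 0 1 (by decide)) (this 1 2 (by decide)) (this 2 3 (by decide))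
      (this 3 4 (by decide)) (this 4 5 (by decide))]
    rfl
  rw [this]; rfl

instance : Finite (Setoid (Fin 14)) :=
  Finite.of_injective (fun s : Setoid (Fin 14) => s.r) fun _ _ h =>
    Setoid.ext fun a b => iff_of_eq (congrFun (congrFun h a) b)

noncomputable instance : Fintype (Setoid (Fin 14)) := Fintype.ofFinite _

theorem notP' : ¬ P (2 : ℤ) (5 + 1) (Rl (Proper lam)) := by
  classical
  have : Nonempty (Setoid (Fin 14)) := ⟨⊤⟩
  exact notP _ 5 AA ch ch_mem face_zero _ even6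
    (total AA ch (fun a ha => (ch_mem a ha).1) ww ww.eq_1 Phi_ww)

theorem shape_iff (s : Setoid (Fin 14)) : (∃ f : Fin 14 → ℕ, s = Setoid.ker f ∧
    Multiset.map (fun a => (Finset.univ.filter (fun z => f z = a)).card)
      (Finset.univ.image f).val = lam.parts) ↔ shape s = lam.parts := by
  constructor
  · rintro ⟨f, rfl, h⟩
    rw [shape_ker]; exact h
  · intro h
    have e : s = Setoid.ker fun x => ((Quotient.mk s x).out : ℕ) := by
      ext x y
      rw [Setoid.ker_def, Fin.val_inj, Quotient.out_inj, Quotient.eq]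
    exact ⟨_, e, by rw [← shape_ker, ← e]; exact h⟩

theorem main : ¬ (IsEmpty {x : Setoid (Fin 14) → ℝ |
          (∀ t, 0 ≤ x t) ∧
          (∀ t, x t ≠ 0 →
            ((∃ S : Set (Setoid (Fin 14)),
                (∀ s ∈ S, ∃ f : Fin 14 → ℕ, s = Setoid.ker f ∧
                  Multiset.map (fun a => (Finset.univ.filter (fun z => f z = a)).card)
                    (Finset.univ.image f).val = lam.parts) ∧
                sSup S = t) ∧ t ≠ ⊥ ∧ t ≠ ⊤)) ∧
          (∑ᶠ t, x t) = 1 ∧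
          (∀ a b, x a ≠ 0 → x b ≠ 0 → a ≤ b ∨ b ≤ a)} ∨
        ∃ (k : ℕ) (d : Fin k → ℕ),
          Nonempty (ContinuousMap.HomotopyEquiv
            {x : Setoid (Fin 14) → ℝ |
              (∀ t, 0 ≤ x t) ∧
              (∀ t, x t ≠ 0 →
                ((∃ S : Set (Setoid (Fin 14)),
                    (∀ s ∈ S, ∃ f : Fin 14 → ℕ, s = Setoid.ker f ∧
                      Multiset.map (fun a => (Finset.univ.filter (fun z => f z = a)).card)
                        (Finset.univ.image f).val = lam.parts) ∧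
                    sSup S = t) ∧ t ≠ ⊥ ∧ t ≠ ⊤)) ∧
              (∑ᶠ t, x t) = 1 ∧
              (∀ a b, x a ≠ 0 → x b ≠ 0 → a ≤ b ∨ b ≤ a)}
            {y : (i : Fin k) → Fin (d i + 1) → ℝ |
              (∀ i, ∑ j, y i j ^ 2 = 1) ∧
              ∀ i i', i ≠ i' → y i = Pi.single 0 1 ∨ y i' = Pi.single 0 1})) := by
  have e : {x : Setoid (Fin 14) → ℝ |
          (∀ t, 0 ≤ x t) ∧
          (∀ t, x t ≠ 0 →
            ((∃ S : Set (Setoid (Fin 14)),
                (∀ s ∈ S, ∃ f : Fin 14 → ℕ, s = Setoid.ker f ∧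
                  Multiset.map (fun a => (Finset.univ.filter (fun z => f z = a)).card)
                    (Finset.univ.image f).val = lam.parts) ∧
                sSup S = t) ∧ t ≠ ⊥ ∧ t ≠ ⊤)) ∧
          (∑ᶠ t, x t) = 1 ∧
          (∀ a b, x a ≠ 0 → x b ≠ 0 → a ≤ b ∨ b ≤ a)} = Rl (Proper lam) := by
    simp only [shape_iff, finsum_eq_sum_of_fintype, Rl, Proper, PiL, Set.mem_ofPred_eq,
      eq_comm (a := sSup _)]
  rw [e]
  rintro (h | ⟨k, D, ⟨h⟩⟩)
  · exact notP' (Set.isEmpty_coe_sort.mp h ▸ P_empty _ _)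
  · exact notP' (P_equiv (Rl_cpt _) (Wedge_cpt D) h (P_wedge 3 D))

end Pool.Agent.H.MP_22a609_co
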